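import Pool.Agent.MP_5f72fe_nt.H3.SpecC
import Pool.Agent.MP_1246c0_nt.H53.RED

/-! Reduction theory and the upper bound for the number of classes of binary cubic forms of
negative reduced discriminant. -/

namespace Pool.Agent.MP_5f72fe_nt.H6

open Filter MeasureTheory Pool.Agent.MP_1246c0_nt.H55 Pool.Agent.MP_5f72fe_nt.H3
open scoped Pointwise

/-- normal form of a real form of negative reduced discriminant -/
theorem factorG (F : Fm ℝ) (hd : dsc F < 0) (h0 : F 0 ≠ 0) :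
    ∃ q u v : ℝ, 0 < v ∧ F = mkG (F 0) q u v := by
  obtain ⟨P, hP⟩ : ∃ P, P = F 1 ^ 2 - F 0 * F 2 := ⟨_, rfl⟩
  have hP3 : 4 * P ^ 3 = (F 0 ^ 2 * F 3 - 3 * F 0 * F 1 * F 2 + 2 * F 1 ^ 3) ^ 2 -
      F 0 ^ 2 * dsc F := by
    rw [hP, dsc]; ring
  have hP0 : 0 < P := by
    have h1 : 0 < F 0 ^ 2 * -dsc F := mul_pos (by positivity) (by linarith)
    have h2 : 0 < P ^ 3 := by
      nlinarith [sq_nonneg (F 0 ^ 2 * F 3 - 3 * F 0 * F 1 * F 2 + 2 * F 1 ^ 3)]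
    exact (Odd.pow_pos_iff (by decide)).1 h2
  obtain ⟨u, hu⟩ : ∃ u, 2 * P * u = F 0 * F 3 - F 1 * F 2 :=
    ⟨(F 0 * F 3 - F 1 * F 2) / (2 * P), by field_simp⟩
  obtain ⟨v, hv0, hv⟩ : ∃ v, 0 < v ∧ (2 * P * v) ^ 2 = -dsc F := by
    refine ⟨√(-dsc F) / (2 * P), div_pos (Real.sqrt_pos.2 (by linarith)) (by linarith), ?_⟩
    rw [mul_div_cancel₀ _ (by linarith), Real.sq_sqrt (by linarith)]
  have hR : P * (u ^ 2 + v ^ 2) = F 2 ^ 2 - F 1 * F 3 := by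
    refine mul_left_cancel₀ (by linarith : 4 * P ≠ 0) ?_
    rw [dsc] at hv
    linear_combination hv + (2 * P * u + (F 0 * F 3 - F 1 * F 2)) * hu -
      4 * (F 2 ^ 2 - F 1 * F 3) * hP
  obtain ⟨q, hq⟩ : ∃ q, q * v = F 1 + F 0 * u := ⟨(F 1 + F 0 * u) / v, by field_simp⟩
  refine ⟨q, u, v, hv0, ?_⟩
  have e1 : F 1 = q * v - F 0 * u := by linarith
  have e2 : F 2 = F 0 * (u ^ 2 - v ^ 2) - 2 * q * u * v := by
    refine mul_left_cancel₀ hP0.ne' ?_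
    linear_combination F 2 * hP + F 0 * hR + F 1 * hu + 2 * P * u * hq
  have e3 : F 3 = q * (3 * u ^ 2 * v - v ^ 3) - F 0 * (u ^ 3 - 3 * u * v ^ 2) := by
    refine mul_left_cancel₀ (pow_ne_zero 2 hP0.ne') ?_
    linear_combination (-(P ^ 2) * (3 * u ^ 2 - v ^ 2)) * hq -
      F 1 * (2 * P * u + (F 0 * F 3 - F 1 * F 2)) * hu + F 1 * P * hR -
      F 0 * (P * (u ^ 2 + v ^ 2)) * hu - F 0 * (F 0 * F 3 - F 1 * F 2) * hR +
      (F 3 * P + F 2 * (F 0 * F 3 - F 1 * F 2) * (-1)) * hP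
  funext i
  fin_cases i
  · rfl
  · exact e1
  · exact e2
  · exact e3

/-- the action on normal forms -/
theorem act_mkG (p q u v a b c d L : ℝ) (h : a * d - b * c = 1)
    (hL : L = (a - u * c) ^ 2 + v ^ 2 * c ^ 2) (h0 : L ≠ 0) : ∃ p' q' : ℝ,
    act (mkG p q u v) a b c d = mkG p' q'
      (-((a - u * c) * (b - u * d) + v ^ 2 * c * d) / L) (v / L) := by
  obtain ⟨u', hu'⟩ : ∃ u', u' = -((a - u * c) * (b - u * d) + v ^ 2 * c * d) / L := ⟨_, rfl⟩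
  obtain ⟨v', hv'⟩ : ∃ v', v' = v / L := ⟨_, rfl⟩
  rw [← hu', ← hv']
  have e1 : b = u * d - (a - u * c) * u' - v * c * v' := by
    rw [hu', hv']
    field_simp
    rw [hL]
    linear_combination (-v ^ 2 * c) * h
  have e2 : v * d = (a - u * c) * v' - v * c * u' := by
    rw [hu', hv']
    field_simp
    rw [hL]
    linear_combination (v * (a - u * c)) * h
  obtain ⟨A, hA⟩ : ∃ A, A = a - u * c := ⟨_, rfl⟩
  rw [← hA] at e1 e2
  have ha : a = A + u * c := by linarith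
  refine ⟨p * (A ^ 3 - 3 * A * (v * c) ^ 2) + q * (3 * A ^ 2 * (v * c) - (v * c) ^ 3),
    q * (A ^ 3 - 3 * A * (v * c) ^ 2) - p * (3 * A ^ 2 * (v * c) - (v * c) ^ 3), ?_⟩
  obtain ⟨B, hB⟩ : ∃ B, B = b - u * d := ⟨_, rfl⟩
  have hb : b = B + u * d := by linarith
  have e3 : B = -(A * u') - v * c * v' := by linarith
  have k0 : act (mkG p q u v) a b c d 0 =
      p * (A ^ 3 - 3 * A * (v * c) ^ 2) + q * (3 * A ^ 2 * (v * c) - (v * c) ^ 3) := by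
    simp [act, ev, mkG, ha]; ring
  have k1 : act (mkG p q u v) a b c d 1 =
      p * (A ^ 2 * B - (v * c) ^ 2 * B - 2 * A * (v * c) * (v * d)) +
        q * (2 * A * B * (v * c) + A ^ 2 * (v * d) - (v * c) ^ 2 * (v * d)) := by
    simp [act, mkG, ha, hb]; ring
  have k2 : act (mkG p q u v) a b c d 2 =
      p * (A * B ^ 2 - A * (v * d) ^ 2 - 2 * B * (v * c) * (v * d)) +
        q * (2 * A * B * (v * d) + B ^ 2 * (v * c) - (v * c) * (v * d) ^ 2) := by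
    simp [act, mkG, ha, hb]; ring
  have k3 : act (mkG p q u v) a b c d 3 =
      p * (B ^ 3 - 3 * B * (v * d) ^ 2) + q * (3 * B ^ 2 * (v * d) - (v * d) ^ 3) := by
    simp [act, ev, mkG, hb]; ring
  funext i
  fin_cases i
  · exact k0
  · refine k1.trans ?_
    rw [e2, e3]; simp [mkG]; ring
  · refine k2.trans ?_
    rw [e2, e3]; simp [mkG]; ring
  · refine k3.trans ?_
    rw [e2, e3]; simp [mkG]; ring

theorem rowREDN : RowREDN := by
  intro f hA hd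
  have h0 : cst ℝ f 0 ≠ 0 := by
    intro h
    have h1 : f 0 = 0 := by simpa [cst] using h
    have := (hA 1 0 (by simp [ev, h1])).1
    simp at this
  have hd' : dsc (cst ℝ f) < 0 := by rw [dsc_cst]; exact_mod_cast hd
  obtain ⟨q, u, v, hv, hf⟩ := factorG _ hd' h0
  generalize cst ℝ f 0 = p at hf
  obtain ⟨a, b, c, d, hdet, L, hL, hL0, hu, huv⟩ := Pool.Agent.MP_1246c0_nt.H53.red2 u v hv
  have hdr : (a : ℝ) * d - b * c = 1 := by exact_mod_cast hdet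
  obtain ⟨p', q', e1⟩ := act_mkG p q u v a b c d L hdr hL hL0.ne'
  rw [← hf, ← cst_act] at e1
  generalize -((a - u * c) * (b - u * d) + v ^ 2 * c * d) / L = u' at e1 hu huv
  have e2 : ((ev f a c : ℤ) : ℝ) = p' := by
    have := congrFun e1 0
    simpa [cst, act, mkG] using this
  have hne : ev f a c ≠ 0 := by
    intro h
    obtain ⟨rfl, rfl⟩ := hA a c h
    simp at hdet
  rcases lt_or_gt_of_ne hne with hneg | hpos
  · refine ⟨-a, -b, -c, -d, by linarith, -p', -q', u', v / L, ?_, hu, huv, div_pos hv hL0, ?_⟩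
    · have : ((ev f a c : ℤ) : ℝ) ≤ (-1 : ℤ) := by exact_mod_cast (by omega)
      push_cast at this
      linarith
    · have e3 : cst ℝ (act f (-a) (-b) (-c) (-d)) = -cst ℝ (act f a b c d) := by
        funext i
        fin_cases i <;> simp [cst, act, ev] <;> ring
      rw [e3, e1]
      funext i
      fin_cases i <;> simp [mkG] <;> ring
  · refine ⟨a, b, c, d, hdet, p', q', u', v / L, ?_, hu, huv, div_pos hv hL0, e1⟩
    rw [← e2]
    exact_mod_cast hpos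

theorem smul_mkG (s p q u v : ℝ) (hs : s ≠ 0) :
    s • mkG (p / s) (q / s) u v = mkG p q u v := by
  funext i
  fin_cases i <;> simp [mkG] <;> field_simp

theorem rowCNTN : OfCNTN := by
  classical
  rintro hV hL ⟨C, hC⟩ hR M P ρ ε hM ⟨Ω, hΩ, hρ⟩ hε
  obtain ⟨T, hT1, hT0, hT2⟩ : ∃ T : ℝ, 1 ≤ T ∧ 0 < √T ∧ C ≤ √T * (ε / 2) := by
    have hm : 1 ≤ max 1 (C / (ε / 2)) := le_max_left _ _
    refine ⟨max 1 (C / (ε / 2)) ^ 2, one_le_pow₀ hm, ?_, ?_⟩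
    · rw [Real.sqrt_sq (by linarith)]; linarith
    · rw [Real.sqrt_sq (by linarith), ← div_le_iff₀ (half_pos hε)]
      exact le_max_right _ _
  have hV0 : (0 : ℝ) ≤ 1 := zero_le_one
  have h1 := hL (KG T) 1 (ε / 2) M (hV T).1 hV0 (hV T).2 (half_pos hε) hM
  have h2 : Tendsto (fun X : ℝ => Real.sqrt (Real.sqrt X)) atTop atTop :=
    Real.tendsto_sqrt_atTop.comp Real.tendsto_sqrt_atTop
  have hG : ∀ f : Fm ℤ, ∃ g : Fm ℤ, Aniso f → dsc f < 0 → ∃ a b c d : ℤ, a * d - b * c = 1 ∧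
      g = act f a b c d ∧ ∃ p q u v : ℝ, 1 ≤ p ∧ |u| ≤ 1 / 2 ∧ 1 ≤ u ^ 2 + v ^ 2 ∧ 0 < v ∧
        cst ℝ g = mkG p q u v := by
    intro f
    by_cases h : Aniso f ∧ dsc f < 0
    · obtain ⟨a, b, c, d, h3, h4⟩ := hR f h.1 h.2
      exact ⟨_, fun _ _ => ⟨a, b, c, d, h3, rfl, h4⟩⟩
    · exact ⟨f, fun h3 h4 => absurd ⟨h3, h4⟩ h⟩
  choose G hG using hG
  filter_upwards [h2.eventually h1, eventually_gt_atTop 0] with X hX hX0 S hS hI
  obtain ⟨s, hs⟩ : ∃ s, s = Real.sqrt (Real.sqrt X) := ⟨_, rfl⟩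
  rw [← hs] at hX
  have hs0 : 0 < s := hs ▸ Real.sqrt_pos.2 (Real.sqrt_pos.2 hX0)
  have hs4 : s ^ 4 = X := by
    rw [show s ^ 4 = (s ^ 2) ^ 2 by ring, hs, Real.sq_sqrt (Real.sqrt_nonneg _),
      Real.sq_sqrt hX0.le]
  have hinj : Set.InjOn G S := by
    intro f hf g hg e
    obtain ⟨a, b, c, d, h3, h4, -⟩ := hG f (hS f hf).1 (hS f hf).2.1
    obtain ⟨a', b', c', d', h3', h4', -⟩ := hG g (hS g hg).1 (hS g hg).2.1
    exact hI f hf g hg ⟨a, b, c, d, a', b', c', d', h3, h3', by rw [← h4, ← h4', e]⟩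
  have hS' : ∀ g ∈ S.image G, P g ∧ ((-dsc g : ℤ) : ℝ) ≤ X ∧ ∃ p q u v : ℝ, 1 ≤ p ∧
      |u| ≤ 1 / 2 ∧ 1 ≤ u ^ 2 + v ^ 2 ∧ 0 < v ∧ cst ℝ g = mkG p q u v := by
    intro g hg
    obtain ⟨f, hf, rfl⟩ := Finset.mem_image.1 hg
    obtain ⟨h3, h4, h5, h6⟩ := hS f hf
    obtain ⟨a, b, c, d, h7, h8, h9⟩ := hG f h3 h4
    refine ⟨h8 ▸ h6 a b c d h7, ?_, h9⟩
    rw [h8, dsc_act, h7, one_pow, one_mul]
    exact h5
  rw [← Finset.card_image_of_injOn hinj, ← Finset.card_filter_add_card_filter_not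
    (s := S.image G) (fun g => ∃ p q u v : ℝ, 1 ≤ p ∧ |u| ≤ 1 / 2 ∧ T ≤ v ∧
      cst ℝ g = mkG p q u v)]
  have c1 := hC T X _ hT1 hX0 fun g (hg : g ∈ (S.image G).filter fun g => ∃ p q u v : ℝ, 1 ≤ p ∧
    |u| ≤ 1 / 2 ∧ T ≤ v ∧ cst ℝ g = mkG p q u v) =>
      ⟨(hS' g (Finset.mem_filter.1 hg).1).2.1, (Finset.mem_filter.1 hg).2⟩
  have c2 := hX Ω ((S.image G).filter fun g => ¬ ∃ p q u v : ℝ, 1 ≤ p ∧
    |u| ≤ 1 / 2 ∧ T ≤ v ∧ cst ℝ g = mkG p q u v) (by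
      intro g hg
      obtain ⟨hg1, hg2⟩ := Finset.mem_filter.1 hg
      obtain ⟨h3, h4, p, q, u, v, h5, h6, h7, h8, h9⟩ := hS' g hg1
      refine ⟨hΩ g h3, mkG (p / s) (q / s) u v, ⟨p / s, q / s, u, v, by positivity, h6, h7, h8.le,
        ?_, ?_, rfl⟩, ?_⟩
      · by_contra hn
        exact hg2 ⟨p, q, u, v, h5, h6, (not_le.1 hn).le, h9⟩
      · rw [Int.cast_neg, ← dsc_cst, h9, ← hs4, dsc_mkG] at h4
        rw [show 4 * v ^ 6 * ((p / s) ^ 2 + (q / s) ^ 2) ^ 2 =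
          4 * v ^ 6 * (p ^ 2 + q ^ 2) ^ 2 / s ^ 4 by field_simp,
          div_le_iff₀ (by positivity)]
        linarith
      · rw [h9]
        exact smul_mkG s p q u v hs0.ne')
  have : NeZero M := ⟨hM.ne'⟩
  have c3 : (Ω.card : ℝ) ≤ M ^ 4 := by
    have := Finset.card_le_univ Ω
    rw [Fintype.card_fun, ZMod.card, Fintype.card_fin] at this
    exact_mod_cast this
  rw [hs4] at c2
  generalize (((S.image G).filter fun g => ¬ ∃ p q u v : ℝ, 1 ≤ p ∧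
    |u| ≤ 1 / 2 ∧ T ≤ v ∧ cst ℝ g = mkG p q u v).card) = n2 at c2 ⊢
  generalize (((S.image G).filter fun g => ∃ p q u v : ℝ, 1 ≤ p ∧
    |u| ≤ 1 / 2 ∧ T ≤ v ∧ cst ℝ g = mkG p q u v).card) = n1 at c1 ⊢
  have hM4 : (0 : ℝ) < M ^ 4 := by positivity
  have c4 : (n1 : ℝ) ≤ ε / 2 * X := by
    refine le_of_mul_le_mul_right (c1.trans ?_) hT0
    nlinarith
  have c5 : (n2 : ℝ) ≤ (ρ + ε / 2) * X := by
    refine le_of_mul_le_mul_right (c2.trans ?_) hM4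
    have a2 := mul_le_mul_of_nonneg_right c3 (half_pos hε).le
    have a3 : (Ω.card : ℝ) * (1 + ε / 2) ≤ (ρ + ε / 2) * M ^ 4 := by
      linarith
    have a4 := mul_le_mul_of_nonneg_right a3 hX0.le
    linarith
  push_cast
  linarith

end Pool.Agent.MP_5f72fe_nt.H6
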