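import Pool.Agent.MP_5f72fe_nt.H3.SpecC

/-! Cusp forms of the plus space are bounded; a form with no odd part vanishes. -/

namespace Pool.Agent.MP_5f72fe_nt.H6

open Pool.Agent.MP_5f72fe_nt.H3 Complex
open scoped Real MatrixGroups UpperHalfPlane

theorem sm_par {c : ℕ → ℂ} (h : Sm c) (μ : ℕ) : Sm (par μ c) := by
  intro r h0 h1
  refine (h r h0 h1).of_nonneg_of_le (fun n => by positivity) fun n => ?_
  refine mul_le_mul_of_nonneg_right ?_ (by positivity)
  unfold par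
  split_ifs <;> simp

/-- A function invariant under the two generators and bounded for large imaginary part. -/
theorem inv_bound (Ψ : ℂ → ℝ) (B : ℝ) (hT : ∀ τ : ℂ, 0 < τ.im → Ψ (τ + 1) = Ψ τ)
    (hS : ∀ τ : ℂ, 0 < τ.im → Ψ (-1 / τ) = Ψ τ) (hB : ∀ τ : ℂ, 1 / 2 ≤ τ.im → Ψ τ ≤ B)
    (τ : ℂ) (hτ : 0 < τ.im) : Ψ τ ≤ B := by
  have key : ∀ g : SL(2, ℤ), ∀ z : ℍ, Ψ ((g • z : ℍ) : ℂ) = Ψ z := by
    intro g
    have hg : g ∈ Subgroup.closure {ModularGroup.S, ModularGroup.T} := by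
      rw [SpecialLinearGroup.SL2Z_generators]; trivial
    induction hg using Subgroup.closure_induction with
    | mem g hg =>
      intro z
      rcases hg with rfl | rfl
      · rw [UpperHalfPlane.modular_S_smul, ← hS z z.im_pos]
        congr 1
        change (-(z : ℂ))⁻¹ = -1 / z
        rw [inv_neg, neg_div, one_div]
      · rw [UpperHalfPlane.modular_T_smul, ← hT z z.im_pos, UpperHalfPlane.coe_vadd, add_comm]
        simp
    | one => intro z; rw [one_smul]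
    | mul a b _ _ ha hb => intro z; rw [mul_smul, ha, hb]
    | inv a _ ha => intro z; rw [← ha (a⁻¹ • z), smul_inv_smul]
  obtain ⟨g, hg⟩ := ModularGroup.exists_one_half_le_im_smul ⟨τ, hτ⟩
  exact (key g ⟨τ, hτ⟩).symm.le.trans (hB _ hg)

theorem norm_shift (hJ : RowJH) (c : ℕ → ℂ) (r : ℕ) (hc : ∀ n, c n ≠ 0 → n % 4 = r) (τ : ℂ) :
    ‖ser 4 c (τ + 1)‖ = ‖ser 4 c τ‖ := by
  have h1 : ser 4 c (τ + 1) = E (r / 4) * ser 4 c τ := by
    unfold ser
    rw [← tsum_mul_left]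
    refine tsum_congr fun n => ?_
    by_cases hn : c n = 0
    · simp [hn]
    · have h2 : (n : ℂ) = 4 * ((n / 4 : ℕ) : ℤ) + r := by
        have h3 := Nat.div_add_mod n 4
        rw [hc n hn] at h3
        exact_mod_cast h3.symm
      have h3 : (n : ℂ) * (τ + 1) / (4 : ℕ) = r / 4 + (n * τ / (4 : ℕ) + ((n / 4 : ℕ) : ℤ)) := by
        have h4 : (((n / 4 : ℕ) : ℤ) : ℂ) = (n - r) / 4 := by linear_combination (-1 / 4) * h2
        rw [h4]; push_cast; ring
      rw [h3, hJ.add, hJ.add, hJ.int]; ring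
  rw [h1, norm_mul, hJ.norm]
  simp

theorem norm_le (hJ : RowJH) (c : ℕ → ℂ) (hs : Sm c) (h0 : c 0 = 0) :
    ∃ K : ℝ, 0 ≤ K ∧ ∀ τ : ℂ, 1 / 2 ≤ τ.im → ‖ser 4 c τ‖ ≤ K * Real.exp (-(π / 2 * τ.im)) := by
  have hr1 : Real.exp (-(π / 4)) < 1 := Real.exp_lt_one_iff.2 (by linarith [Real.pi_pos])
  have hsum := hs (Real.exp (-(π / 4))) (Real.exp_pos _).le hr1
  refine ⟨(∑' n, ‖c n‖ * Real.exp (-(π / 4)) ^ n) * Real.exp (π / 4),
    mul_nonneg (tsum_nonneg fun n => by positivity) (Real.exp_pos _).le, fun τ hτ => ?_⟩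
  rw [mul_assoc, ← tsum_mul_right]
  refine tsum_of_norm_bounded (hsum.mul_right _).hasSum fun n => ?_
  rcases Nat.eq_zero_or_pos n with rfl | hn
  · simp [h0]
  · rw [norm_mul, hJ.norm, mul_assoc ‖c n‖]
    refine mul_le_mul_of_nonneg_left ?_ (norm_nonneg _)
    rw [← Real.exp_nat_mul, ← Real.exp_add, ← Real.exp_add]
    refine Real.exp_le_exp.2 ?_
    have h1 : ((n : ℂ) * τ / (4 : ℕ)).im = n * τ.im / 4 := by
      have : (n : ℂ) * τ / (4 : ℕ) = ((n / 4 : ℝ) : ℂ) * τ := by push_cast; ring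
      rw [this, im_ofReal_mul]; ring
    have h2 : (1 : ℝ) ≤ n := by exact_mod_cast hn
    rw [h1]
    have h3 : 0 ≤ π * ((n - 1) * (τ.im - 1 / 2)) :=
      mul_nonneg Real.pi_pos.le (mul_nonneg (by linarith) (by linarith))
    nlinarith

theorem rowVB : OfVB := by
  intro hS hJ
  constructor
  · rintro k c ⟨hs, hsup, hl⟩ h0
    obtain ⟨K₀, hK₀, hb₀⟩ := norm_le hJ (par 0 c) (sm_par hs 0) (by simp [par, h0])
    obtain ⟨K₁, hK₁, hb₁⟩ := norm_le hJ (par 1 c) (sm_par hs 1) (by simp [par])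
    have hΨ := inv_bound
      (fun τ => (‖ser 4 (par 0 c) τ‖ ^ 2 + ‖ser 4 (par 1 c) τ‖ ^ 2) ^ 2 * τ.im ^ (2 * k + 1))
      ((K₀ ^ 2 + K₁ ^ 2) ^ 2 * (2 * k + 1).factorial) ?_ ?_ ?_
    · refine ⟨(K₀ ^ 2 + K₁ ^ 2) ^ 2 * (2 * k + 1).factorial + 1, fun μ hμ τ hτ => ?_⟩
      have h1 := hΨ τ hτ
      obtain ⟨Q, hQ⟩ : ∃ Q, Q = ‖ser 4 (par μ c) τ‖ * τ.im ^ ((k + 1 / 2 : ℝ) / 2) := ⟨_, rfl⟩
      have h2 : Q ^ 4 ≤ (K₀ ^ 2 + K₁ ^ 2) ^ 2 * (2 * k + 1).factorial := by
        refine le_trans ?_ h1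
        have h3 : (τ.im ^ ((k + 1 / 2 : ℝ) / 2)) ^ 4 = τ.im ^ (2 * k + 1) := by
          rw [← Real.rpow_natCast, ← Real.rpow_mul hτ.le, ← Real.rpow_natCast]
          congr 1; push_cast; ring
        rw [hQ, mul_pow, h3]
        refine mul_le_mul_of_nonneg_right ?_ (by positivity)
        rw [show (4 : ℕ) = 2 * 2 from rfl, pow_mul]
        refine pow_le_pow_left₀ (by positivity) ?_ 2
        obtain rfl | rfl : μ = 0 ∨ μ = 1 := by omega
        · exact le_add_of_nonneg_right (by positivity)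
        · exact le_add_of_nonneg_left (by positivity)
      rw [← hQ]
      have h4 : (0 : ℝ) ≤ (K₀ ^ 2 + K₁ ^ 2) ^ 2 * (2 * k + 1).factorial := by positivity
      by_cases h5 : Q ≤ 1
      · linarith
      · have h6 : Q ≤ Q ^ 4 := le_self_pow₀ (by linarith) (by norm_num)
        linarith
    · intro τ _
      have e0 := norm_shift hJ (par 0 c) 0 (fun n hn => by
        unfold par at hn
        split_ifs at hn with h
        · have := hsup n hn; omega
        · exact absurd rfl hn) τ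
      have e1 := norm_shift hJ (par 1 c) (1 + 2 * (k % 2)) (fun n hn => by
        unfold par at hn
        split_ifs at hn with h
        · have := hsup n hn; omega
        · exact absurd rfl hn) τ
      simp only [e0, e1, add_im, one_im, add_zero]
    · intro τ hτ
      have hτ0 : τ ≠ 0 := by rintro rfl; simp at hτ
      have hn0 : 0 < ‖τ‖ := norm_pos_iff.2 hτ0
      have l0 := hl τ hτ 0 (by norm_num)
      have l1 := hl τ hτ 1 (by norm_num)
      rw [Nat.cast_one, one_mul] at l0 l1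
      have hj : ‖Jh τ‖ ^ 2 = ‖τ‖ := by rw [← norm_pow, hJ.sq]; simp
      have hj2 : (‖Jh τ‖ ^ (2 * k + 1)) ^ 2 = ‖τ‖ ^ (2 * k + 1) := by
        rw [← pow_mul, mul_comm, pow_mul, hj]
      have him : (-1 / τ).im = τ.im / ‖τ‖ ^ 2 := by
        rw [neg_div, one_div, neg_im, inv_im, Complex.normSq_eq_norm_sq]; ring
      have h2 : (√2 : ℝ) ^ 2 = 2 := Real.sq_sqrt (by norm_num)
      have hpar := parallelogram_law_with_norm ℝ (ser 4 (par 0 c) τ) (ser 4 (par 1 c) τ)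
      have hsum : ‖ser 4 (par 0 c) (-1 / τ)‖ ^ 2 + ‖ser 4 (par 1 c) (-1 / τ)‖ ^ 2 =
          ‖τ‖ ^ (2 * k + 1) * (‖ser 4 (par 0 c) τ‖ ^ 2 + ‖ser 4 (par 1 c) τ‖ ^ 2) := by
        rw [l0, l1]
        simp only [norm_mul, norm_pow, norm_I, one_pow, one_mul, norm_div, norm_real,
          Real.norm_eq_abs, mul_pow, div_pow, sq_abs, h2, hj2, pow_zero, pow_one, neg_mul,
          ← sub_eq_add_neg]
        linear_combination (‖τ‖ ^ (2 * k + 1) / 2) * hpar
      simp only [hsum, him]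
      rw [div_pow, ← pow_mul, mul_comm 2 (2 * k + 1), pow_mul]
      field_simp
    · intro τ hτ
      have a0 := hb₀ τ hτ
      have a1 := hb₁ τ hτ
      have hy : 0 ≤ τ.im := by linarith
      obtain ⟨r, hr⟩ : ∃ r, r = Real.exp (-(π / 2 * τ.im)) := ⟨_, rfl⟩
      rw [← hr] at a0 a1
      have h1 : ‖ser 4 (par 0 c) τ‖ ^ 2 + ‖ser 4 (par 1 c) τ‖ ^ 2 ≤ (K₀ ^ 2 + K₁ ^ 2) * r ^ 2 := by
        have b0 := pow_le_pow_left₀ (norm_nonneg _) a0 2
        have b1 := pow_le_pow_left₀ (norm_nonneg _) a1 2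
        nlinarith
      have h2 : r ^ 4 * τ.im ^ (2 * k + 1) ≤ (2 * k + 1).factorial := by
        have h3 := Real.pow_div_factorial_le_exp τ.im hy (2 * k + 1)
        rw [div_le_iff₀ (by positivity)] at h3
        have h4 : r ^ 4 * Real.exp τ.im ≤ 1 := by
          rw [hr, ← Real.exp_nat_mul, ← Real.exp_add]
          refine Real.exp_le_one_iff.2 ?_
          push_cast
          nlinarith [Real.pi_gt_three]
        calc r ^ 4 * τ.im ^ (2 * k + 1) ≤ r ^ 4 * (Real.exp τ.im * (2 * k + 1).factorial) :=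
              mul_le_mul_of_nonneg_left h3 (by positivity)
          _ = r ^ 4 * Real.exp τ.im * (2 * k + 1).factorial := by ring
          _ ≤ 1 * (2 * k + 1).factorial := mul_le_mul_of_nonneg_right h4 (by positivity)
          _ = _ := one_mul _
      calc _ ≤ ((K₀ ^ 2 + K₁ ^ 2) * r ^ 2) ^ 2 * τ.im ^ (2 * k + 1) :=
            mul_le_mul_of_nonneg_right (pow_le_pow_left₀ (by positivity) h1 2) (by positivity)
        _ = (K₀ ^ 2 + K₁ ^ 2) ^ 2 * (r ^ 4 * τ.im ^ (2 * k + 1)) := by ring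
        _ ≤ _ := mul_le_mul_of_nonneg_left h2 (by positivity)
  · rintro k c ⟨hs, -, hl⟩ h1
    have hz : ∀ τ : ℂ, ser 4 (par 1 c) τ = 0 := by
      intro τ; simp [ser, h1]
    have h0 : par 0 c = 0 := by
      refine hS.uniq 4 (par 0 c) 0 (by norm_num) fun τ hτ => ?_
      have l1 := hl τ hτ 1 (by norm_num)
      rw [hz, hz, mul_zero, add_zero] at l1
      have h2 : ((√2 : ℝ) : ℂ) ≠ 0 := by
        exact_mod_cast (Real.sqrt_pos.2 (by norm_num : (0 : ℝ) < 2)).ne'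
      have h3 : ser 4 (par 0 c) τ = 0 := by
        have h4 := (mul_eq_zero.1 l1.symm).resolve_left
          (mul_ne_zero (pow_ne_zero _ I_ne_zero) (pow_ne_zero _ (hJ.jne τ hτ)))
        exact (div_eq_zero_iff.1 h4).resolve_right h2
      have h5 := (hS.nsum 4 (par 0 c) τ (by norm_num) (sm_par hs 0) hτ).of_norm.hasSum
      rw [← h3]
      exact h5
    funext n
    have a0 := congrFun h0 n
    have a1 := congrFun h1 n
    unfold par at a0 a1
    rcases Nat.mod_two_eq_zero_or_one n with h | h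
    · rwa [if_pos h] at a0
    · rwa [if_pos h] at a1

end Pool.Agent.MP_5f72fe_nt.H6
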