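import Pool.Agent.MP_5f72fe_nt.H3.SpecC

/-! Representation of squarefree `n ≡ 7 (12)` by `y² + 3a² + 3b²`, by the method of Ankeny. -/

namespace Pool.Agent.MP_5f72fe_nt.H6

open Pool.Agent.MP_5f72fe_nt.H3 MeasureTheory
open scoped Real NumberTheorySymbols

/-- Minkowski's theorem for ellipsoids in dimension three. -/
theorem mink_ball (A : Matrix (Fin 3) (Fin 3) ℝ) (hA : A.det ≠ 0) (r : ℝ) (hr : 0 < r)
    (h : 8 * |A.det| < r ^ 3 * (π * 4 / 3)) :
    ∃ y : Fin 3 → ℤ, y ≠ 0 ∧ ∑ i, (∑ j, A i j * (y j : ℝ)) ^ 2 < r ^ 2 := by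
  classical
  set b := Pi.basisFun ℝ (Fin 3) with hb
  have fund := ZSpan.isAddFundamentalDomain' b (volume : Measure (Fin 3 → ℝ))
  set B : Set (Fin 3 → ℝ) :=
    (WithLp.toLp 2) ⁻¹' (Metric.ball (0 : EuclideanSpace ℝ (Fin 3)) r) with hB
  have hBm : ∀ x, x ∈ B ↔ ∑ i, x i ^ 2 < r ^ 2 := by
    intro x
    rw [hB, Set.mem_preimage, EuclideanSpace.ball_zero_eq r hr.le]
    rfl
  have hBv : volume B = ENNReal.ofReal (r ^ 3 * (π * 4 / 3)) := by
    rw [hB, (PiLp.volume_preserving_toLp (Fin 3)).measure_preimage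
      measurableSet_ball.nullMeasurableSet, EuclideanSpace.volume_ball_fin_three,
      ENNReal.ofReal_mul (by positivity), ENNReal.ofReal_pow hr.le]
  have hBc : Convex ℝ B :=
    (convex_ball (0 : EuclideanSpace ℝ (Fin 3)) r).linear_preimage
      (WithLp.linearEquiv 2 ℝ (Fin 3 → ℝ)).symm.toLinearMap
  set s : Set (Fin 3 → ℝ) := (Matrix.toLin' A) ⁻¹' B with hs
  have hdet : LinearMap.det (Matrix.toLin' A) = A.det := LinearMap.det_toLin' A
  have hsymm : ∀ x ∈ s, -x ∈ s := by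
    intro x hx
    rw [hs, Set.mem_preimage, hBm] at hx ⊢
    simpa [map_neg] using hx
  have hconv : Convex ℝ s := hBc.linear_preimage _
  have hpos : 0 < |A.det| := abs_pos.mpr hA
  have hvol : volume (ZSpan.fundamentalDomain b) * 2 ^ Module.finrank ℝ (Fin 3 → ℝ) <
      volume s := by
    rw [hs, Measure.addHaar_preimage_linearMap _ (by rwa [hdet]), hdet, hBv,
      ZSpan.volume_fundamentalDomain]
    have h1 : (Matrix.of b).det = 1 := by
      have : Matrix.of b = (1 : Matrix (Fin 3) (Fin 3) ℝ) := by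
        ext i j
        simp [hb, Matrix.one_apply, Pi.single_apply, eq_comm]
      rw [this, Matrix.det_one]
    rw [h1, abs_one, ENNReal.ofReal_one, one_mul, Module.finrank_fin_fun,
      ← ENNReal.ofReal_mul (abs_nonneg _)]
    have h2 : (2 : ENNReal) ^ 3 = ENNReal.ofReal 8 := by
      rw [show (8 : ℝ) = 2 ^ 3 by norm_num, ENNReal.ofReal_pow (by norm_num)]; simp
    rw [h2]
    have h4 : (8 : ℝ) < |A.det⁻¹| * (r ^ 3 * (π * 4 / 3)) := by
      rw [abs_inv, inv_mul_eq_div, lt_div_iff₀ hpos]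
      exact h
    exact (ENNReal.ofReal_lt_ofReal_iff (lt_trans (by positivity) h4)).mpr h4
  have : Countable (Submodule.span ℤ (Set.range b)).toAddSubgroup := by
    change Countable (Submodule.span ℤ (Set.range b))
    infer_instance
  obtain ⟨x, hx0, hx⟩ :=
    exists_ne_zero_mem_lattice_of_measure_mul_two_pow_lt_measure fund hsymm hconv hvol
  have hint : ∀ i, ∃ z : ℤ, (z : ℝ) = (x : Fin 3 → ℝ) i := by
    intro i
    obtain ⟨z, hz⟩ := (b.mem_span_iff_repr_mem ℤ _).mp x.2 i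
    exact ⟨z, by simpa [hb] using hz⟩
  choose y hy using hint
  refine ⟨y, ?_, ?_⟩
  · intro h0
    apply hx0
    ext i
    simp [← hy i, h0]
  · rw [hs, Set.mem_preimage, hBm] at hx
    simpa only [Matrix.toLin'_apply, Matrix.mulVec, dotProduct, ← hy] using hx

/-- The auxiliary prime. -/
theorem exists_aux (n : ℕ) (hn : n % 12 = 7) :
    ∃ (q : ℕ) (b h : ℤ), q.Prime ∧ q % 4 = 1 ∧ n < q ∧ (n : ℤ) ∣ q + 3 ∧
      b ^ 2 + n = 4 * q * h := by
  have hcop : IsCoprime (-3 : ℤ) ((4 * n : ℕ) : ℤ) := by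
    refine IsCoprime.neg_left ?_
    have : Nat.Coprime 3 (4 * n) := (Nat.Prime.coprime_iff_not_dvd Nat.prime_three).2 (by omega)
    exact_mod_cast Nat.isCoprime_iff_coprime.2 this
  obtain ⟨q, hqn, hq, hmod⟩ := Nat.forall_exists_prime_gt_and_zmodEq n (q := 4 * n) (a := -3)
    (by omega) hcop
  have hd : ((4 * n : ℕ) : ℤ) ∣ q + 3 := by
    have := hmod.symm.dvd
    simpa using this
  have hq4 : q % 4 = 1 := by
    have : (4 : ℤ) ∣ q + 3 := Dvd.dvd.trans ⟨n, by push_cast; ring⟩ hd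
    omega
  have hnq : (n : ℤ) ∣ q + 3 := Dvd.dvd.trans ⟨4, by push_cast; ring⟩ hd
  have hodd : Odd n := Nat.odd_iff.2 (by omega)
  have hJ : J(-(n : ℤ) | q) = 1 := by
    have hqo : Odd q := Nat.odd_iff.2 (by omega)
    rw [jacobiSym.neg _ hqo, ZMod.χ₄_nat_one_mod_four hq4, one_mul,
      jacobiSym.quadratic_reciprocity_one_mod_four' hodd hq4]
    have h1 : J((q : ℤ) | n) = J(-3 | n) := by
      refine jacobiSym.mod_left' ?_
      refine (Int.emod_emod_of_dvd _ (dvd_refl _)).symm.trans ?_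
      have : (q : ℤ) ≡ -3 [ZMOD n] := (Int.modEq_iff_dvd.2 (by simpa using hnq)).symm
      rw [Int.emod_emod_of_dvd _ (dvd_refl _)]
      exact this
    rw [h1, jacobiSym.neg _ hodd, ZMod.χ₄_nat_three_mod_four (by omega)]
    have h2 := jacobiSym.quadratic_reciprocity_three_mod_four (a := 3) (b := n) (by norm_num)
      (by omega)
    have h3 : J((n : ℤ) | 3) = 1 := by
      rw [jacobiSym.mod_left]
      have : (n : ℤ) % ((3 : ℕ) : ℤ) = 1 := by omega
      rw [this, jacobiSym.one_left]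
    have h4 : J(3 | n) = -1 := by
      have : J(((3 : ℕ) : ℤ) | n) = -1 := by rw [h2, h3]
      exact_mod_cast this
    rw [h4]; norm_num
  have : Fact q.Prime := ⟨hq⟩
  obtain ⟨c, hc⟩ := ZMod.isSquare_of_jacobiSym_eq_one hJ
  obtain ⟨b₀, rfl⟩ := ZMod.intCast_surjective c
  have hb₀ : (q : ℤ) ∣ b₀ ^ 2 + n := by
    rw [← ZMod.intCast_zmod_eq_zero_iff_dvd]
    push_cast at hc ⊢
    rw [sq, ← hc]; ring
  have key : ∀ b : ℤ, b % 2 = 1 → (q : ℤ) ∣ b ^ 2 + n → ∃ h, b ^ 2 + n = 4 * q * h := by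
    intro b hb hd
    have h4 : (4 : ℤ) ∣ b ^ 2 + n := by
      obtain ⟨k, rfl⟩ : ∃ k, b = 2 * k + 1 := ⟨b / 2, by omega⟩
      have : (2 * k + 1) ^ 2 + (n : ℤ) = 4 * (k ^ 2 + k) + (n + 1) := by ring
      rw [this]; omega
    have hc4 : IsCoprime (4 : ℤ) q := by
      have : Nat.Coprime 4 q := by
        rw [show 4 = 2 ^ 2 by norm_num]
        exact Nat.Coprime.pow_left _ ((Nat.Prime.coprime_iff_not_dvd Nat.prime_two).2 (by omega))
      exact_mod_cast Nat.isCoprime_iff_coprime.2 this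
    exact hc4.mul_dvd h4 hd
  rcases Int.emod_two_eq_zero_or_one b₀ with hb | hb
  · obtain ⟨h, hh⟩ := key (b₀ + q) (by omega) (by
      have : (b₀ + q) ^ 2 + (n : ℤ) = (b₀ ^ 2 + n) + q * (2 * b₀ + q) := by ring
      rw [this]; exact dvd_add hb₀ (dvd_mul_right _ _))
    exact ⟨q, _, h, hq, hq4, hqn, hnq, hh⟩
  · obtain ⟨h, hh⟩ := key b₀ hb hb₀
    exact ⟨q, _, h, hq, hq4, hqn, hnq, hh⟩

theorem dvd_of_sq_add_sq {p : ℕ} (hp : p.Prime) (h3 : p % 4 = 3) {x y : ℤ}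
    (h : (p : ℤ) ∣ x ^ 2 + y ^ 2) : (p : ℤ) ∣ x ∧ (p : ℤ) ∣ y := by
  have : Fact p.Prime := ⟨hp⟩
  have h1 : (x : ZMod p) ^ 2 + (y : ZMod p) ^ 2 = 0 := by
    have := (ZMod.intCast_zmod_eq_zero_iff_dvd _ _).2 h
    exact_mod_cast this
  have hy : (y : ZMod p) = 0 := by
    by_contra hy
    exact ZMod.mod_four_ne_three_of_sq_eq_neg_sq' hy (eq_neg_of_add_eq_zero_left h1) h3
  have hx : (x : ZMod p) = 0 := by
    rw [hy] at h1
    simpa using h1
  exact ⟨(ZMod.intCast_zmod_eq_zero_iff_dvd _ _).1 hx, (ZMod.intCast_zmod_eq_zero_iff_dvd _ _).1 hy⟩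

theorem even_val {p : ℕ} (hp : p.Prime) (n : ℕ)
    (han : ∀ x z : ℤ, (p : ℤ) ∣ x ^ 2 + n * z ^ 2 → (p : ℤ) ∣ x ∧ (p : ℤ) ∣ z) (m : ℕ) :
    ∀ x z : ℤ, (m : ℤ) = x ^ 2 + n * z ^ 2 → Even (padicValNat p m) := by
  have : Fact p.Prime := ⟨hp⟩
  induction m using Nat.strong_induction_on with
  | _ m ih =>
    intro x z hm
    rcases Nat.eq_zero_or_pos m with rfl | hpos
    · simp
    by_cases hd : p ∣ m
    · obtain ⟨⟨x', rfl⟩, ⟨z', rfl⟩⟩ := han x z (hm ▸ Int.natCast_dvd_natCast.2 hd)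
      have hnn : 0 ≤ x' ^ 2 + n * z' ^ 2 := by positivity
      obtain ⟨m', hm'⟩ := Int.eq_ofNat_of_zero_le hnn
      have he : m = p ^ 2 * m' := by
        have : (m : ℤ) = p ^ 2 * m' := by rw [hm, ← hm']; ring
        exact_mod_cast this
      have hm0 : m' ≠ 0 := by rintro rfl; omega
      have hlt : m' < m := by
        have h2 : 1 < p ^ 2 := Nat.one_lt_pow (by norm_num) hp.one_lt
        rw [he]
        exact lt_mul_of_one_lt_left (Nat.pos_of_ne_zero hm0) h2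
      rw [he, padicValNat.mul (pow_ne_zero _ hp.ne_zero) hm0, padicValNat.prime_pow]
      exact (even_two).add (ih m' hlt x' z' hm'.symm)
    · rw [padicValNat.eq_zero_of_not_dvd hd]; exact Even.zero

/-- The lattice point. -/
theorem exists_point (n q : ℕ) (b h : ℤ) (hn : n % 12 = 7) (hq : q.Prime) (hnq : n < q)
    (hd : (n : ℤ) ∣ q + 3) (hb : b ^ 2 + n = 4 * q * h) :
    ∃ (R X z : ℤ) (v : ℕ), (n : ℤ) = R ^ 2 + 3 * v ∧ 4 * (q : ℤ) * v = X ^ 2 + n * z ^ 2 := by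
  obtain ⟨t, ht⟩ : ∃ t : ℤ, 2 * t = n + 1 := ⟨(n + 1) / 2, by omega⟩
  have hn0 : (0 : ℝ) < n := by exact_mod_cast (by omega : 0 < n)
  have hq0 : (0 : ℝ) < q := by exact_mod_cast hq.pos
  set s : ℝ := √n with hs
  set c : ℝ := √(3 / (4 * q)) with hc
  have hs0 : 0 < s := Real.sqrt_pos.2 hn0
  have hc0 : 0 < c := Real.sqrt_pos.2 (by positivity)
  have hs2 : s ^ 2 = n := Real.sq_sqrt hn0.le
  have hc2 : c ^ 2 = 3 / (4 * q) := Real.sq_sqrt (by positivity)
  have hc3 : 4 * q * c ^ 2 = 3 := by rw [hc2]; field_simp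
  let A : Matrix (Fin 3) (Fin 3) ℝ :=
    !![n, t * (2 * q), t * b; 0, c * (2 * q), c * b; 0, 0, c * s]
  have hdet : A.det = 3 / 2 * s ^ 3 := by
    simp only [A, Matrix.det_fin_three]
    simp
    rw [← hs2]
    linear_combination (s ^ 3 / 2) * hc3
  obtain ⟨y, hy0, hy⟩ := mink_ball A (by rw [hdet]; positivity) (3 / 2 * s) (by positivity) (by
    rw [hdet, abs_of_pos (by positivity)]
    have h3 : 0 < s ^ 3 := by positivity
    nlinarith [Real.pi_gt_three])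
  set X : ℤ := 2 * q * y 1 + b * y 2 with hX
  set R : ℤ := n * y 0 + t * X with hR
  set v : ℤ := q * y 1 ^ 2 + b * y 1 * y 2 + h * y 2 ^ 2 with hv
  have h4 : 4 * (q : ℤ) * v = X ^ 2 + n * y 2 ^ 2 := by
    rw [hv, hX]; linear_combination (-(y 2) ^ 2) * hb
  have hqz : (0 : ℤ) < q := by exact_mod_cast hq.pos
  have hnz : (0 : ℤ) < n := by omega
  have hv0 : 0 ≤ v := by
    have : 0 ≤ 4 * (q : ℤ) * v := by rw [h4]; positivity
    exact nonneg_of_mul_nonneg_right this (by positivity) |> fun h => h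
  have hlt : R ^ 2 + 3 * v < 3 * n := by
    have h5 : ((R ^ 2 + 3 * v : ℤ) : ℝ) < 3 * n := by
      have h6 : (4 * (q : ℝ) * v) = (X : ℝ) ^ 2 + n * (y 2 : ℝ) ^ 2 := by exact_mod_cast h4
      have h7 : ∑ i, (∑ j, A i j * (y j : ℝ)) ^ 2 = (R : ℝ) ^ 2 + 3 * v := by
        simp only [A, Fin.sum_univ_three]
        simp
        have hXr : (X : ℝ) = 2 * q * y 1 + b * y 2 := by rw [hX]; push_cast; ring
        have hRr : (R : ℝ) = n * y 0 + t * X := by rw [hR]; push_cast; ring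
        rw [hRr, ← hc3]
        rw [← hs2] at h6
        rw [hXr] at h6 ⊢
        linear_combination (-c ^ 2) * h6
      push_cast
      rw [← h7]
      nlinarith
    exact_mod_cast h5
  have hpos : 0 < R ^ 2 + 3 * v := by
    by_contra hle
    have hR0 : R = 0 := by nlinarith
    have hv1 : v = 0 := by nlinarith
    rw [hv1] at h4
    have hz : y 2 = 0 := by
      by_contra hz
      have : 0 < y 2 ^ 2 := by positivity
      nlinarith [sq_nonneg X]
    have hX0 : X = 0 := by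
      rw [hz] at h4
      nlinarith
    have hy1 : y 1 = 0 := by
      rw [hX0, hz] at hX
      have : (2 * q : ℤ) * y 1 = 0 := by linarith
      exact (mul_eq_zero.1 this).resolve_left (by omega)
    have hy2 : y 0 = 0 := by
      rw [hR0, hX0] at hR
      have : (n : ℤ) * y 0 = 0 := by linarith
      exact (mul_eq_zero.1 this).resolve_left (by omega)
    apply hy0
    ext i
    fin_cases i <;> assumption
  have hdiv : (n : ℤ) ∣ R ^ 2 + 3 * v := by
    have hcop : IsCoprime (n : ℤ) (4 * q) := by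
      have h1 : Nat.Coprime n (4 * q) := by
        refine Nat.Coprime.mul_right ?_ ?_
        · rw [show 4 = 2 ^ 2 by norm_num]
          exact Nat.Coprime.pow_right _
            ((Nat.Prime.coprime_iff_not_dvd Nat.prime_two).2 (by omega)).symm
        · exact ((Nat.Prime.coprime_iff_not_dvd hq).2
            (Nat.not_dvd_of_pos_of_lt (by omega) hnq)).symm
      exact_mod_cast Nat.isCoprime_iff_coprime.2 h1
    refine hcop.dvd_of_dvd_mul_left ?_
    obtain ⟨e, he⟩ := hd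
    refine ⟨q * (4 * n * y 0 ^ 2 + 8 * y 0 * t * X + (n + 2) * X ^ 2) + e * X ^ 2 +
      3 * y 2 ^ 2, ?_⟩
    rw [hR]
    linear_combination 3 * h4 + X ^ 2 * he + q * X ^ 2 * (2 * t + n + 1) * ht
  obtain ⟨k, hk⟩ := hdiv
  have hk1 : 0 < k := by
    by_contra hk0
    nlinarith
  have hk3 : k < 3 := by
    by_contra hk0
    nlinarith
  obtain ⟨w, hw⟩ := Int.eq_ofNat_of_zero_le hv0
  refine ⟨R, X, y 2, w, ?_, by rw [← hw]; exact h4⟩
  rw [← hw]
  have hk2 : k ≠ 2 := by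
    rintro rfl
    have h3 : R % 3 = 0 ∨ R % 3 = 1 ∨ R % 3 = 2 := by omega
    have h5 : R ^ 2 % 3 = 0 ∨ R ^ 2 % 3 = 1 := by
      rcases h3 with h3 | h3 | h3 <;> simp [pow_two, Int.mul_emod, h3]
    omega
  have : k = 1 := by omega
  rw [hk, this, mul_one]

theorem two_sq (n q v : ℕ) (R X z : ℤ) (hn : n % 12 = 7) (hsf : Squarefree n) (hq : q.Prime)
    (hq4 : q % 4 = 1) (hd : (n : ℤ) ∣ q + 3) (h1 : (n : ℤ) = R ^ 2 + 3 * v)
    (h2 : 4 * (q : ℤ) * v = X ^ 2 + n * z ^ 2) : ∃ a b : ℕ, v = a ^ 2 + b ^ 2 := by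
  rw [Nat.eq_sq_add_sq_iff]
  intro p hpv h3
  have hp : p.Prime := Nat.prime_of_mem_primeFactors hpv
  have hpi : Prime (p : ℤ) := Nat.prime_iff_prime_int.1 hp
  have hv0 : v ≠ 0 := (Nat.mem_primeFactors.1 hpv).2.2
  obtain ⟨v', hv'⟩ : (p : ℤ) ∣ v := Int.natCast_dvd_natCast.2 (Nat.dvd_of_mem_primeFactors hpv)
  have : Fact p.Prime := ⟨hp⟩
  by_cases hpn : (p : ℤ) ∣ n
  · exfalso
    obtain ⟨n', hn'⟩ := hpn
    have hp0 : (p : ℤ) ≠ 0 := hpi.ne_zero
    obtain ⟨R', hR'⟩ : (p : ℤ) ∣ R :=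
      hpi.dvd_of_dvd_pow (n := 2) ⟨n' - 3 * v', by linear_combination -h1 + hn' - 3 * hv'⟩
    obtain ⟨X', hX'⟩ : (p : ℤ) ∣ X :=
      hpi.dvd_of_dvd_pow (n := 2) ⟨4 * q * v' - n' * z ^ 2, by
        linear_combination -h2 + 4 * q * hv' - z ^ 2 * hn'⟩
    have e1 : n' = p * R' ^ 2 + 3 * v' := by
      refine mul_left_cancel₀ hp0 ?_
      rw [← hn', h1, hR', hv']; ring
    have e2 : 4 * q * v' = p * X' ^ 2 + n' * z ^ 2 := by
      refine mul_left_cancel₀ hp0 ?_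
      rw [hX', hv', hn'] at h2
      linear_combination h2
    have hn1 : ¬ (p : ℤ) ∣ n' := by
      rintro ⟨m, hm⟩
      have h5 : ((p * p : ℕ) : ℤ) ∣ n := ⟨m, by rw [hn', hm]; push_cast; ring⟩
      exact hp.one_lt.ne' (Nat.isUnit_iff.1 (hsf p (Int.natCast_dvd_natCast.1 h5)))
    obtain ⟨e, he⟩ := hd
    have h6 : (p : ℤ) ∣ n' * (z ^ 2 + 2 ^ 2) :=
      ⟨4 * R' ^ 2 - X' ^ 2 + 4 * n' * e * v', by
        linear_combination -e2 + 4 * e1 + 4 * v' * he + 4 * e * v' * hn'⟩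
    have h7 := (dvd_of_sq_add_sq hp h3 ((hpi.dvd_or_dvd h6).resolve_left hn1)).2
    have h8 : p ∣ 2 := Int.natCast_dvd_natCast.1 h7
    have := Nat.le_of_dvd two_pos h8
    omega
  · have han : ∀ x z : ℤ, (p : ℤ) ∣ x ^ 2 + n * z ^ 2 → (p : ℤ) ∣ x ∧ (p : ℤ) ∣ z := by
      rintro x w ⟨m, hm⟩
      have h5 : (p : ℤ) ∣ x ^ 2 + (R * w) ^ 2 :=
        ⟨m - 3 * v' * w ^ 2, by linear_combination hm - w ^ 2 * h1 - 3 * w ^ 2 * hv'⟩
      obtain ⟨h6, h7⟩ := dvd_of_sq_add_sq hp h3 h5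
      refine ⟨h6, (hpi.dvd_or_dvd h7).resolve_left ?_⟩
      rintro ⟨R', hR'⟩
      exact hpn ⟨p * R' ^ 2 + 3 * v', by rw [h1, hR', hv']; ring⟩
    have h5 := even_val hp n han (4 * q * v) X z (by push_cast; exact h2)
    have h6 : ¬ p ∣ 4 * q := by
      intro h
      rcases (Nat.Prime.dvd_mul hp).1 h with h | h
      · have h7 : p ∣ 2 := hp.dvd_of_dvd_pow (n := 2) h
        have := Nat.le_of_dvd two_pos h7
        omega
      · have := (Nat.prime_dvd_prime_iff_eq hp hq).1 h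
        omega
    rwa [padicValNat.mul (by have := hq.pos; omega) hv0, padicValNat.eq_zero_of_not_dvd h6,
      zero_add] at h5

theorem mem_Rp (n : ℕ) (a y b : ℤ) (h : y ^ 2 + 3 * a ^ 2 + 3 * b ^ 2 = n) (hp : y % 2 = b % 2) :
    (a, y, b) ∈ Rp n := by
  have key : ∀ x : ℤ, x ^ 2 ≤ n → x ∈ Finset.Icc (-(n : ℤ)) n := by
    intro x hx
    rw [Finset.mem_Icc]
    constructor <;> nlinarith [sq_nonneg (2 * x - 1), sq_nonneg (2 * x + 1), Int.le_self_sq x,
      Int.le_self_sq (-x)]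
  refine Finset.mem_filter.2 ⟨?_, h, hp⟩
  refine Finset.mem_product.2 ⟨key a ?_, Finset.mem_product.2 ⟨key y ?_, key b ?_⟩⟩ <;>
    nlinarith [sq_nonneg a, sq_nonneg y, sq_nonneg b]

theorem rowANK : RowANK := by
  intro n hn hsf
  obtain ⟨q, b, h, hq, hq4, hnq, hd, hb⟩ := exists_aux n hn
  obtain ⟨R, X, z, v, h1, h2⟩ := exists_point n q b h hn hq hnq hd hb
  obtain ⟨a, c, hv⟩ := two_sq n q v R X z hn hsf hq hq4 hd h1 h2
  have hv' : (v : ℤ) = a ^ 2 + c ^ 2 := by exact_mod_cast hv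
  by_cases hp : R % 2 = (c : ℤ) % 2
  · exact ⟨_, mem_Rp n a R c (by rw [h1, hv']; ring) hp⟩
  · refine ⟨_, mem_Rp n c R a (by rw [h1, hv']; ring) ?_⟩
    by_contra hp'
    have sq4 : ∀ x : ℤ, (x % 2 = 0 ∧ x ^ 2 % 4 = 0) ∨ (x % 2 = 1 ∧ x ^ 2 % 4 = 1) := by
      intro x
      rcases Int.emod_two_eq_zero_or_one x with hx | hx
      · obtain ⟨k, rfl⟩ : ∃ k, x = 2 * k := ⟨x / 2, by omega⟩
        left
        have : (2 * k) ^ 2 = 4 * k ^ 2 := by ring
        omega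
      · obtain ⟨k, rfl⟩ : ∃ k, x = 2 * k + 1 := ⟨x / 2, by omega⟩
        right
        have : (2 * k + 1) ^ 2 = 4 * (k ^ 2 + k) + 1 := by ring
        omega
    have := sq4 R
    have := sq4 a
    have := sq4 c
    omega

end Pool.Agent.MP_5f72fe_nt.H6
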